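import Pool.Agent.Helper35.FlagGraph

/-!
Two-colour flag colouring has unbounded Grundy values, so it does not have finite nim dimension.
-/

namespace Pool.Agent.Results.MP_08830e_co.UnboundedNimbers

open FlagColoring

/-- For every `N` there is a finite connected two-coloured simple graph whose Grundy value in
two-colour flag colouring exceeds `N`. -/
theorem result : ∀ N : ℕ, ∃ (V : Type) (_ : Fintype V) (G : SimpleGraph V) (χ : V → Bool),
    G.Connected ∧ N < grundy G χ :=
  flag_unbounded

end Pool.Agent.Results.MP_08830e_co.UnboundedNimbers
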